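import Pool.Agent.H37.CNX.Stmts
import Pool.Agent.H37.CNT.Stmts
import Pool.Agent.H37.CNQ.Stmts

/-!
# Denominators of conductors: twisting a cover of a `p`-group `G` by a normal elementary abelian subgroup `E`:
statements of the rows of the board `cnz`

Row `XXX` is a theorem `xxx_thm (h1 : S_AAA) ... : S_XXX` in `Pool/Agent/H<k>/CNZ/XXX.lean`, importing this
file, namespace `Pool.CND`.

Plan.  `L₁`: some cover of `G` containing `k(x)`, `G` acting by `x ↦ x + ι g`, `t = A(x)` (`PEX`, by central extensions,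
`CES`).  `L₂`: a cover of `G₂ = E ⋊ (G / C_G(E))` over the same `k(x)`, with large conductor `m + p ^ J / p ^ d`
(`ZGD`, `ZRA`, `ZRB`, `ZCV`).  In the compositum `L` (`CMA`, `CMU`), with group `Γ ≤ G × G₂`, take the fixed field of the
kernel of `Γ → G`, `(g, a) ↦ ε(a) g` (`TWI`): a cover of `G` with the conductor of `L₂`.
-/

set_option autoImplicit false

namespace Pool.CND

open Finset Matrix

/-- `θ` is regular at the places where `t` is -/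
def Reg (k : Type) {L : Type} [Field k] [Field L] [Algebra k L] (t θ : L) : Prop :=
  ∀ P : Place k L, 0 ≤ P.ord t → θ = 0 ∨ 0 ≤ P.ord θ

/-- `L₁` with `ρ₁` is the quotient of `L` with `ρ` along `π` -/
structure Quo {k L L₁ G G₁ : Type} [Field k] [Field L] [Field L₁] [Algebra k L] [Algebra k L₁]
    [Group G] [Group G₁] (ρ : G →* (L ≃ₐ[k] L)) (ρ₁ : G₁ →* (L₁ ≃ₐ[k] L₁)) (π : G →* G₁)
    (j : L₁ →ₐ[k] L) : Prop where
  surj : Function.Surjective π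
  eqv : ∀ (g : G) (y : L₁), ρ g (j y) = j (ρ₁ (π g) y)
  fix : ∀ z : L, (∀ g : G, π g = 1 → ρ g z = z) → ∃ y : L₁, z = j y

/-! ## Central extensions -/

/-- TRS: an element of trace `1`, regular at the finite places.  `O` = integral closure of `k[t]` in `L`; if all traces of
elements of `O` (an ideal of `k[t]`) are divisible by `t - a`: take a place `P` with `P.ord (t - a) > 0` (`EXI`), the primes
`𝔪_g = {y ∈ O : y = 0 ∨ 0 < P.ord (g y)}` of `O`, `g ∈ G`, are distinct (if `𝔪_g = 𝔪_h` the discrete valuation ring is the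
same, so `h g⁻¹` fixes `P`); Chinese remainder: `y ∈ O` with `y ∉ 𝔪_1`, `y ∈ 𝔪_g` for `g ≠ 1`; its trace is not in `𝔪_1` -/
def S_TRS : Prop := ∀ (k L G : Type) [Field k] [IsAlgClosed k] [Field L] [Algebra k L]
  [Group G] [Finite G] (ρ : G →* (L ≃ₐ[k] L)) (t : L), IsCover ρ t →
  ∃ θ : L, Reg k t θ ∧ ∑ᶠ g : G, ρ g θ = 1

/-- CCO: cocycles, from `TRS` (for `G / ⟨z⟩`).  `s` a section of `G → G / ⟨z⟩`, `g s(u) = s(g u) z ^ n(g, u)`,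
`b g = ∑_u n(g, u) ρ(g u) θ`; `r = - ∑_u (b(u) ^ p - b(u)) ρ(u) θ` (`b ^ p - b` depends on the coset only) -/
def S_CCO : Prop := ∀ (p : ℕ) (k L G : Type) [Field k] [IsAlgClosed k] [Field L] [Algebra k L]
  [Group G] [Finite G] (z : G) [(Subgroup.zpowers z).Normal]
  (ρ : (G ⧸ Subgroup.zpowers z) →* (L ≃ₐ[k] L)) (t : L), p.Prime → CharP k p → orderOf z = p →
  (∀ g : G, g * z = z * g) → IsCover ρ t →
  ∃ (b : G → L) (r : L), Reg k t r ∧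
    (∀ g h : G, b (g * h) = b g + ρ (g : G ⧸ Subgroup.zpowers z) (b h)) ∧ b z = 1 ∧
    ∀ g : G, ρ (g : G ⧸ Subgroup.zpowers z) r - r = b g ^ p - b g

/-- CIR: `r + t ^ a` is not `u ^ p - u` for some `a`.  If `u_a ^ p - u_a = r + t ^ a` for all `a` prime to `p`:
`g ↦ g (u_a - u_1) - (u_a - u_1)` is one of finitely many homomorphisms `G → F_p`; equal for `a ≠ a'`: `u_a - u_a'` is in
`k(t)`, against the degree of `t ^ a - t ^ a'` -/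
def S_CIR : Prop := ∀ (p : ℕ) (k L G : Type) [Field k] [Field L] [Algebra k L]
  [Group G] [Finite G] (ρ : G →* (L ≃ₐ[k] L)) (t r : L), p.Prime → CharP k p → IsCover ρ t →
  ∃ a : ℕ, ∀ u : L, u ^ p - u ≠ r + t ^ a

/-- CGA: the Artin-Schreier extension `L' = L(Y)`, `Y ^ p - Y = r`, with the action of `G` -/
def S_CGA : Prop := ∀ (p : ℕ) (k L G : Type) [Field k] [Field L] [Algebra k L] [Group G] [Finite G]
  (z : G) [(Subgroup.zpowers z).Normal] (ρ : (G ⧸ Subgroup.zpowers z) →* (L ≃ₐ[k] L)) (b : G → L)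
  (r : L), p.Prime → CharP k p → orderOf z = p → Function.Injective ρ →
  (∀ g h : G, b (g * h) = b g + ρ (g : G ⧸ Subgroup.zpowers z) (b h)) → b z = 1 →
  (∀ g : G, ρ (g : G ⧸ Subgroup.zpowers z) r - r = b g ^ p - b g) → (∀ u : L, u ^ p - u ≠ r) →
  ∃ (L' : Type) (_ : Field L') (_ : Algebra k L') (j : L →ₐ[k] L') (Y : L')
    (ρ' : G →* (L' ≃ₐ[k] L')), Y ^ p - Y = j r ∧
    (∀ (g : G) (y : L), ρ' g (j y) = j (ρ (g : G ⧸ Subgroup.zpowers z) y)) ∧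
    (∀ g : G, ρ' g Y = Y + j (b g)) ∧ Function.Injective ρ' ∧
    ∀ x : L', ρ' z x = x → ∃ y : L, x = j y

/-- CUN: it is a cover (`RSP`; if `z ^ i` fixes a finite place: `Y` is regular there, with residue `c`, and
`Y - c`, `Y - c + i` both have positive order) -/
def S_CUN : Prop := ∀ (p : ℕ) (k L L' G : Type) [Field k] [Field L] [Algebra k L] [Field L']
  [Algebra k L'] [Group G] [Finite G] (z : G) [(Subgroup.zpowers z).Normal]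
  (ρ : (G ⧸ Subgroup.zpowers z) →* (L ≃ₐ[k] L)) (b : G → L) (r t : L) (j : L →ₐ[k] L') (Y : L')
  (ρ' : G →* (L' ≃ₐ[k] L')), p.Prime → CharP k p → orderOf z = p → IsCover ρ t → Reg k t r →
  (∀ g h : G, b (g * h) = b g + ρ (g : G ⧸ Subgroup.zpowers z) (b h)) → b z = 1 →
  Y ^ p - Y = j r → (∀ (g : G) (y : L), ρ' g (j y) = j (ρ (g : G ⧸ Subgroup.zpowers z) y)) →
  (∀ g : G, ρ' g Y = Y + j (b g)) → Function.Injective ρ' →
  (∀ x : L', ρ' z x = x → ∃ y : L, x = j y) → IsCover ρ' (j t)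

/-- CES: from `CCO`, `CIR`, `CGA` (for `r + t ^ a`), `CUN` -/
def S_CES : Prop := ∀ (p : ℕ) (k L G : Type) [Field k] [IsAlgClosed k] [Field L] [Algebra k L]
  [Group G] [Finite G] (z : G) [(Subgroup.zpowers z).Normal]
  (ρ : (G ⧸ Subgroup.zpowers z) →* (L ≃ₐ[k] L)) (t : L), p.Prime → CharP k p → orderOf z = p →
  (∀ g : G, g * z = z * g) → IsCover ρ t →
  ∃ (L' : Type) (_ : Field L') (_ : Algebra k L') (j : L →ₐ[k] L') (ρ' : G →* (L' ≃ₐ[k] L')),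
    IsCover ρ' (j t) ∧ ∀ (g : G) (y : L), ρ' g (j y) = j (ρ (g : G ⧸ Subgroup.zpowers z) y)

/-- PE0: the cover `k(x)` of `k(A(x))` (e.g. `XGA`, `XUN` for `M = ⊥`, `n = 0`, or `RatFunc k`) -/
def S_PE0 : Prop := ∀ (p : ℕ) (k G : Type) [Field k] [IsAlgClosed k] [CharP k p] [Group G]
  [Finite G] (ι : G → k), p.Prime → (∀ g h : G, ι (g * h) = ι g + ι h) → Function.Injective ι →
  ∃ (L : Type) (_ : Field L) (_ : Algebra k L) (x : L) (ρ : G →* (L ≃ₐ[k] L)),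
    (∀ g : G, ρ g x = x + algebraMap k L (ι g)) ∧ IsCover ρ (Polynomial.aeval x (Apol ι))

/-- PEX: by induction on `|G|`: `PE0` if `ι` is injective; otherwise its kernel contains a central `z` of order `p`: `CES` for
the cover of `G / ⟨z⟩` -/
def S_PEX : Prop := ∀ (p : ℕ) (k G : Type) [Field k] [IsAlgClosed k] [CharP k p] [Group G]
  [Finite G] (ι : G → k), p.Prime → (∃ n : ℕ, Nat.card G = p ^ n) →
  (∀ g h : G, ι (g * h) = ι g + ι h) →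
  ∃ (L : Type) (_ : Field L) (_ : Algebra k L) (x : L) (ρ : G →* (L ≃ₐ[k] L)),
    (∀ g : G, ρ g x = x + algebraMap k L (ι g)) ∧ IsCover ρ (Polynomial.aeval x (Apol ι))

/-! ## The covers of `E ⋊ (G / C_G(E))` -/

/-- ZRA: `f = W A ^ m + λ A ^ (m + 1)`, `W = w + ∑_{j ≤ J} β_j X ^ (p ^ j)`, `λ = - β_0 / ((m + 1) e_0)`: reduced degree
`Q (m - 1) + p ^ J + 1`, `Q = p ^ d` (as `XT2`).  With `A = X ^ Q + A_1`: the term `β_0 X ^ (Q m + 1)` cancels with `λ (m + 1) e_0 X ^ (Q m + 1)`;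
the terms `X ^ (Q (m - 1) + p ^ i + 1)` with coefficient `β_0 e_i`, `i ≥ 1`, cancel with those of `λ A ^ (m + 1)`; coefficient of
`X ^ (Q (m - 1) + 2)`: `m e_0 β_0 / 2`; of `X ^ (Q (m - 1) + p ^ J + 1)`, `J ≥ 1`: `m e_0 β_J`; the other monomials above have exponents
divisible by `p` and reduce to at most `Q m / p + 1`; the terms with `X ^ (Q (m - 2))` have degree at most `Q (m - 1) + p ^ J` -/
def S_ZRA : Prop := ∀ (p d m J : ℕ) (k : Type) [Field k] [IsAlgClosed k] [CharP k p]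
  (e β : ℕ → k) (w : k) (A : Polynomial k), p.Prime → e d = 1 → e 0 ≠ 0 →
  A = ∑ j ∈ range (d + 1), Polynomial.C (e j) * Polynomial.X ^ (p ^ j) → J < d → 4 ≤ m →
  ¬ p ∣ m → β J ≠ 0 → (β 0 = 0 ∨ (p ≠ 2 ∧ ¬ p ∣ (m + 1))) →
  ∃ r : Polynomial k, (((Polynomial.C w +
    ∑ j ∈ range (J + 1), Polynomial.C (β j) * Polynomial.X ^ (p ^ j)) * A ^ m +
    Polynomial.C (-(β 0) / (((m + 1 : ℕ) : k) * e 0)) * A ^ (m + 1)) - (r ^ p - r)).natDegree =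
    p ^ d * (m - 1) + p ^ J + 1

/-- ZRB: the case of constant `W` (`XT1`) -/
def S_ZRB : Prop := ∀ (p d m : ℕ) (k : Type) [Field k] [IsAlgClosed k] [CharP k p]
  (e : ℕ → k) (w : k) (A : Polynomial k), p.Prime → e d = 1 → e 0 ≠ 0 →
  A = ∑ j ∈ range (d + 1), Polynomial.C (e j) * Polynomial.X ^ (p ^ j) → 1 ≤ d → 4 ≤ m →
  ¬ p ∣ m → w ≠ 0 →
  ∃ r : Polynomial k, (Polynomial.C w * A ^ m - (r ^ p - r)).natDegree = p ^ d * (m - 1) + 1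

/-- ZGD: group data.  `G₂ = E ⋊ (G / C_G(E))`, `M = E`, `ε (e, v) = e`, `ι₂ (e, v) = ι v`, `Λ` = all homomorphisms `E → F_p` in
coordinates, `S` as in `XD` (from the action of `G / C_G(E)` on `M`), `C (e, v)` = the constants `S v φ e`, `F i = H (Λ e_i)` -/
def S_ZGD : Prop := ∀ (p : ℕ) (k G : Type) [Field k] [CharP k p] [Group G] [Finite G]
  (E : Subgroup G) (ι : G → k), p.Prime → EA p E → (∀ g : G, ∀ a ∈ E, g * a * g⁻¹ ∈ E) →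
  (∀ g h : G, ι (g * h) = ι g + ι h) → (∀ g : G, ι g = 0 ↔ ∀ a ∈ E, g * a = a * g) →
  ∃ (G₂ : Type) (_ : Group G₂) (_ : Finite G₂) (M : Subgroup G₂) (n : ℕ)
    (φ : M ≃* Multiplicative (Fin n → ZMod p)) (S : G₂ → Matrix (Fin n) (Fin n) (ZMod p))
    (ι₂ : G₂ → k) (C : G₂ → Fin n → Polynomial k)
    (Λ : (Fin n → ZMod p) → (E →* Multiplicative (ZMod p))) (ε : G₂ → G),
    XD M n φ S ι₂ ∧ EA p M ∧ (∀ g : G₂, ∀ a ∈ M, g * a * g⁻¹ ∈ M) ∧ (∀ g : G₂, g ^ p ∈ M) ∧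
    Set.range ι₂ = Set.range ι ∧ Nat.card G₂ = Nat.card (Set.range ι) * Nat.card M ∧
    Function.Bijective Λ ∧ (∀ a b, Λ (a + b) = Λ a * Λ b) ∧
    (∀ g : G₂, ε g ∈ E) ∧ (∀ e ∈ E, ∃ a ∈ M, ε a = e) ∧ (∀ a ∈ M, ε a = 1 → a = 1) ∧
    (∀ (g : G) (a b : G₂), ι g = ι₂ a → ε (a * b) = ε a * (g * ε b * g⁻¹)) ∧
    ∀ H : (E →* Multiplicative (ZMod p)) → Polynomial k, (∀ ℓ ℓ', H (ℓ * ℓ') = H ℓ + H ℓ') →
      (∀ (g : G) (ℓ ℓ' : E →* Multiplicative (ZMod p)),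
        (∀ a b : E, (b : G) = g * a * g⁻¹ → ℓ' b = ℓ a) →
        (H ℓ).comp (Polynomial.X + Polynomial.C (ι g)) = H ℓ') →
      ∃ F : Fin n → Polynomial k, XC M n φ S ι₂ C F ∧
        ∀ ℓ : Fin n → ZMod p, ∑ i, Polynomial.C (fp k (ℓ i)) * F i = H (Λ ℓ)

/-- ZCV: the cover (second half of `XLO`: `ASR`, `XGA`, `EXI`, `XUN`, `XDC`); the last part: `y = ∑ ℓ_i Y_i` -/
def S_ZCV : Prop := ∀ (p d : ℕ) (k G : Type) [Field k] [IsAlgClosed k] [CharP k p] [Group G]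
  [Finite G] (M : Subgroup G) (n : ℕ) (φ : M ≃* Multiplicative (Fin n → ZMod p))
  (S : G → Matrix (Fin n) (Fin n) (ZMod p)) (ι : G → k) (C : G → Fin n → Polynomial k)
  (F : Fin n → Polynomial k) (zv : Fin n → ZMod p) (D0 : ℕ), p.Prime → 1 ≤ d → EA p M →
  (∀ g : G, ∀ a ∈ M, g * a * g⁻¹ ∈ M) → (∀ g : G, g ^ p ∈ M) →
  Nat.card (Set.range ι) = p ^ d → Nat.card G = p ^ d * Nat.card M → XD M n φ S ι →
  XC M n φ S ι C F → zv ≠ 0 → 2 ≤ D0 →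
  (∀ ℓ : Fin n → ZMod p, ℓ ≠ 0 → ∃ (D : ℕ) (r : Polynomial k), 1 ≤ D ∧ ¬ p ∣ D ∧
    ((∑ i, Polynomial.C (fp k (ℓ i)) * F i) - (r ^ p - r)).natDegree = D ∧
    (ℓ ⬝ᵥ zv ≠ 0 → D = D0)) →
  ∃ (L : Type) (_ : Field L) (_ : Algebra k L) (x : L) (ρ : G →* (L ≃ₐ[k] L)) (P : Place k L),
    (∀ g : G, ρ g x = x + algebraMap k L (ι g)) ∧ IsCover ρ (Polynomial.aeval x (Apol ι)) ∧
    P.ord (Polynomial.aeval x (Apol ι)) < 0 ∧
    IsConductor P ρ (((D0 : ℚ) + (p ^ d - 1)) / p ^ d) ∧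
    ∀ ℓ : Fin n → ZMod p, ∃ y : L,
      y ^ p - y = Polynomial.aeval x (∑ i, Polynomial.C (fp k (ℓ i)) * F i) ∧
      ∀ a : M, ρ a y = y + algebraMap k L (fp k (ℓ ⬝ᵥ Multiplicative.toAdd (φ a)))

/-- ZBD: in a fixed cover containing `x` the reduced degrees of the `f` with `f(x) = y ^ p - y` are bounded (as `CIR`: the
`f` modulo `{r ^ p - r}` correspond to homomorphisms `{ι g = 0} → F_p`) -/
def S_ZBD : Prop := ∀ (p : ℕ) (k L G : Type) [Field k] [IsAlgClosed k] [Field L] [Algebra k L]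
  [Group G] [Finite G] (ρ : G →* (L ≃ₐ[k] L)) (ι : G → k) (x : L), p.Prime → CharP k p →
  (∀ g h : G, ι (g * h) = ι g + ι h) → (∀ g : G, ρ g x = x + algebraMap k L (ι g)) →
  IsCover ρ (Polynomial.aeval x (Apol ι)) →
  ∃ B : ℕ, ∀ (y : L) (f r : Polynomial k) (D : ℕ), y ^ p - y = Polynomial.aeval x f → ¬ p ∣ D →
    (f - (r ^ p - r)).natDegree = D → D ≤ B

/-! ## The compositum, and quotients of covers of `p`-groups -/

/-- CMA: `Ω` = algebraic closure of `L₁`; embed `L₂` over `k(x₂) ≅ k(x₁)`; `L` = the compositum; `Γ` = the pairs `(g₁, g₂)` coming from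
an automorphism of `L` over `k(t)` (unique); surjectivity: extend to `Ω` -/
def S_CMA : Prop := ∀ (k L₁ L₂ G₁ G₂ : Type) [Field k] [Field L₁] [Field L₂] [Algebra k L₁]
  [Algebra k L₂] [Group G₁] [Group G₂] [Finite G₁] [Finite G₂] (ρ₁ : G₁ →* (L₁ ≃ₐ[k] L₁))
  (ρ₂ : G₂ →* (L₂ ≃ₐ[k] L₂)) (x₁ : L₁) (x₂ : L₂) (ι₁ : G₁ → k) (ι₂ : G₂ → k) (A : Polynomial k),
  IsCover ρ₁ (Polynomial.aeval x₁ A) → IsCover ρ₂ (Polynomial.aeval x₂ A) →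
  (∀ g : G₁, ρ₁ g x₁ = x₁ + algebraMap k L₁ (ι₁ g)) →
  (∀ g : G₂, ρ₂ g x₂ = x₂ + algebraMap k L₂ (ι₂ g)) →
  ∃ (L : Type) (_ : Field L) (_ : Algebra k L) (j₁ : L₁ →ₐ[k] L) (j₂ : L₂ →ₐ[k] L)
    (Γ : Subgroup (G₁ × G₂)) (ρ : Γ →* (L ≃ₐ[k] L)), j₁ x₁ = j₂ x₂ ∧ Function.Injective ρ ∧
    (∀ x : L, (∀ γ : Γ, ρ γ x = x) ↔
      x ∈ IntermediateField.adjoin k {j₁ (Polynomial.aeval x₁ A)}) ∧
    (∀ γ : Γ, ι₁ (γ : G₁ × G₂).1 = ι₂ (γ : G₁ × G₂).2) ∧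
    Quo ρ ρ₁ ((MonoidHom.fst G₁ G₂).comp Γ.subtype) j₁ ∧
    Quo ρ ρ₂ ((MonoidHom.snd G₁ G₂).comp Γ.subtype) j₂

/-- CMU: the compositum is a cover (`RSP`) -/
def S_CMU : Prop := ∀ (k L L₁ L₂ G₁ G₂ : Type) [Field k] [Field L] [Algebra k L] [Field L₁]
  [Field L₂] [Algebra k L₁] [Algebra k L₂] [Group G₁] [Group G₂] [Finite G₁] [Finite G₂]
  (ρ₁ : G₁ →* (L₁ ≃ₐ[k] L₁)) (ρ₂ : G₂ →* (L₂ ≃ₐ[k] L₂)) (t₁ : L₁) (t₂ : L₂) (j₁ : L₁ →ₐ[k] L)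
  (j₂ : L₂ →ₐ[k] L) (Γ : Subgroup (G₁ × G₂)) (ρ : Γ →* (L ≃ₐ[k] L)), IsCover ρ₁ t₁ →
  IsCover ρ₂ t₂ → j₁ t₁ = j₂ t₂ → Function.Injective ρ →
  (∀ x : L, (∀ γ : Γ, ρ γ x = x) ↔ x ∈ IntermediateField.adjoin k {j₁ t₁}) →
  Quo ρ ρ₁ ((MonoidHom.fst G₁ G₂).comp Γ.subtype) j₁ →
  Quo ρ ρ₂ ((MonoidHom.snd G₁ G₂).comp Γ.subtype) j₂ → IsCover ρ (j₁ t₁)

/-- UQM: as `UQT`: `U` of a quotient is at most `U` (`|N| B g₀ ≤ l + ∑_{n ∈ N, n ≠ 1} b n`: for `g` with the largest `b g` in the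
coset of `g₀`: `b (g n) ≤ b n`, `b g ≤ l`) -/
def S_UQM : Prop := ∀ (G : Type) [Group G] [Fintype G] (b B : G → ℤ) (N I : Subgroup G) (l : ℤ)
  (g₀ : G), UM b I → N ≤ I → (∀ g ∈ I, ∀ n ∈ N, g * n * g⁻¹ ∈ N) →
  (∀ g ∈ I, g ∉ N → sm b {x | g⁻¹ * x ∈ N} = Nat.card N * B g) → IsLst b I l → g₀ ∈ I → g₀ ∉ N →
  ((Nat.card N * B g₀ + sm B {g | g ∈ I ∧ g ∉ N} : ℤ) : ℚ) ≤ (Nat.card I : ℚ) * U b I l

/-- QCC: the conductor of a quotient, `G` a `p`-group: as `QU2` (`P₁` from `RSP`, `e = |ker π ∩ ram 0|` (`TOT`, `RMX`), so the place of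
the fixed field of `N = ker π ∩ ram 0` (`FXP`) has the same uniformisers as `P₁`; `HER`: `B g = P₁.b (π g)`; the inertia group of `P₁`
is the image of `ram P ρ 0` (`TRV`); `ram 0 = ram 1` for `p`-groups (`WLD`)); `UQM`; `UQT` if the last group is not in `ker π`; `CON`, `CNV` -/
def S_QCC : Prop := ∀ (p : ℕ) (k L L₁ G G₁ : Type) [Field k] [Field L] [Field L₁] [Algebra k L]
  [Algebra k L₁] [Group G] [Group G₁] [Finite G] [Finite G₁] (ρ : G →* (L ≃ₐ[k] L))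
  (ρ₁ : G₁ →* (L₁ ≃ₐ[k] L₁)) (π : G →* G₁) (j : L₁ →ₐ[k] L) (t₁ : L₁) (P : Place k L) (c : ℚ),
  p.Prime → CharP k p → (∃ n : ℕ, Nat.card G = p ^ n) → IsCover ρ (j t₁) → IsCover ρ₁ t₁ →
  Quo ρ ρ₁ π j → IsConductor P ρ c →
  ∃ (P₁ : Place k L₁) (e : ℕ), 1 ≤ e ∧ (∀ z : L₁, z ≠ 0 → (e : ℤ) * P₁.ord z = P.ord (j z)) ∧
    (∀ c₁ : ℚ, IsConductor P₁ ρ₁ c₁ → c₁ ≤ c) ∧
    ∀ l : ℕ, ram P ρ (l + 1) = {1} → (∃ g ∈ ram P ρ l, π g ≠ 1) → IsConductor P₁ ρ₁ c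

/-- CJC: the conductor does not depend on the place at infinity (`TRV` for `C = ⊤`: `P'.ord z = P.ord (c z)`,
`ram P' = c⁻¹ (ram P) c`) -/
def S_CJC : Prop := ∀ (k L G : Type) [Field k] [Field L] [Algebra k L] [Group G] [Finite G]
  (ρ : G →* (L ≃ₐ[k] L)) (t : L) (P P' : Place k L) (c : ℚ), IsCover ρ t → P.ord t < 0 →
  P'.ord t < 0 → IsConductor P ρ c → IsConductor P' ρ c

/-- CUQ: the conductor at a place is unique (`ram` is decreasing) -/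
def S_CUQ : Prop := ∀ (k L G : Type) [Field k] [Field L] [Algebra k L] [Group G]
  (ρ : G →* (L ≃ₐ[k] L)) (P : Place k L) (c c' : ℚ), IsConductor P ρ c → IsConductor P ρ c' →
  c = c'

/-- TWI: the twist.  Compositum `L`, `Γ` (`CMA`, `CMU`), `Φ (g, a) = ε(a) g : Γ →* G`.  `(1, a) ∈ Γ` for all `a ∈ M` (else `N` = those `a`
is a proper subgroup, `j₂ y` is fixed by the kernel of `Γ → G`, so in `j₁ L₁`); so `Φ` is surjective.  Place `P` of `L` at infinity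
(`EXI`/`EXS`), its conductor `c`, last group `V`.  (`ram` of `P` is not trivial: else that of `P₂'` below is, `QU2`-like; use a
place of `L` above `P₂` (`EXS`), whose inertia group maps onto that of `P₂` (`TRV`); `CNV` gives the conductor.)  `c ≥ c₂` (`QCC`, `CJC`).  If `V` maps
nontrivially to `G`: `c = c₁ < c₂` (`QCC`), no.  So `V` maps nontrivially to `G₂`: `c = c₂`, and `Φ` is injective on `V`: `QCC` for `Φ` and the
fixed field of its kernel (`QU1`) -/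
def S_TWI : Prop := ∀ (p : ℕ) (k L₁ L₂ G G₂ : Type) [Field k] [IsAlgClosed k] [Field L₁] [Field L₂]
  [Algebra k L₁] [Algebra k L₂] [Group G] [Group G₂] [Finite G] [Finite G₂] (E : Subgroup G)
  (M : Subgroup G₂) (ε : G₂ → G) (ρ₁ : G →* (L₁ ≃ₐ[k] L₁)) (ρ₂ : G₂ →* (L₂ ≃ₐ[k] L₂)) (x₁ : L₁)
  (x₂ : L₂) (ι : G → k) (ι₂ : G₂ → k) (A : Polynomial k) (P₂ : Place k L₂) (c₂ : ℚ), p.Prime →
  CharP k p → (∃ n : ℕ, Nat.card G = p ^ n) → (∃ n : ℕ, Nat.card G₂ = p ^ n) →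
  (∀ g ∈ E, ι g = 0) → (∀ a : G₂, ι₂ a = 0 ↔ a ∈ M) → (∀ g : G₂, ε g ∈ E) →
  (∀ e ∈ E, ∃ a ∈ M, ε a = e) → (∀ a ∈ M, ε a = 1 → a = 1) →
  (∀ (g : G) (a b : G₂), ι g = ι₂ a → ε (a * b) = ε a * (g * ε b * g⁻¹)) →
  IsCover ρ₁ (Polynomial.aeval x₁ A) → IsCover ρ₂ (Polynomial.aeval x₂ A) →
  (∀ g : G, ρ₁ g x₁ = x₁ + algebraMap k L₁ (ι g)) →
  (∀ g : G₂, ρ₂ g x₂ = x₂ + algebraMap k L₂ (ι₂ g)) → P₂.ord (Polynomial.aeval x₂ A) < 0 →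
  IsConductor P₂ ρ₂ c₂ →
  (∀ (P₁ : Place k L₁) (c₁ : ℚ), P₁.ord (Polynomial.aeval x₁ A) < 0 → IsConductor P₁ ρ₁ c₁ →
    c₁ < c₂) →
  (∀ N : Subgroup G₂, N ≤ M → N ≠ M → ∃ (y : L₂) (f : Polynomial k), (∀ a ∈ N, ρ₂ a y = y) ∧
    y ^ p - y = Polynomial.aeval x₂ f ∧ ∀ y₁ : L₁, y₁ ^ p - y₁ ≠ Polynomial.aeval x₁ f) →
  c₂ ∈ Cond k G

/-! ## Results -/

/-- the data for the twist: a polynomial `Ψ ℓ` for every homomorphism `ℓ : E → F_p` -/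
structure ZH (p J : ℕ) {k G : Type} [Field k] [Group G] (E : Subgroup G) (ι : G → k)
    (Ψ : (E →* Multiplicative (ZMod p)) → Polynomial k) : Prop where
  ea : EA p E
  normal : ∀ g : G, ∀ a ∈ E, g * a * g⁻¹ ∈ E
  ι_mul : ∀ g h : G, ι (g * h) = ι g + ι h
  ι_ker : ∀ g : G, ι g = 0 ↔ ∀ a ∈ E, g * a = a * g
  Ψ_mul : ∀ ℓ ℓ' : E →* Multiplicative (ZMod p), Ψ (ℓ * ℓ') = Ψ ℓ + Ψ ℓ'
  Ψ_ne : ∀ ℓ : E →* Multiplicative (ZMod p), ℓ ≠ 1 → Ψ ℓ ≠ 0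
  Ψ_conj : ∀ (g : G) (ℓ ℓ' : E →* Multiplicative (ZMod p)),
    (∀ a b : E, (b : G) = g * a * g⁻¹ → ℓ' b = ℓ a) →
    (Ψ ℓ).comp (Polynomial.X + Polynomial.C (ι g)) = Ψ ℓ'
  Ψ_form : ∀ ℓ : E →* Multiplicative (ZMod p), ∃ (w : k) (β : ℕ → k), (p = 2 → β 0 = 0) ∧
    Ψ ℓ = Polynomial.C w + ∑ j ∈ range (J + 1), Polynomial.C (β j) * Polynomial.X ^ (p ^ j)
  Ψ_top : ∃ ℓ : E →* Multiplicative (ZMod p), (Ψ ℓ).natDegree = p ^ J

/-- ZHH: the equivariant polynomials `H ℓ = Ψ ℓ A ^ m + λ_ℓ A ^ (m + 1)` and their reduced degrees (`XAP`, `ZRA`, `ZRB`; `A(X + ι g) = A`, and the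
coefficient of `X` in `Ψ ℓ` does not change by `Ψ_conj`); `χ`: `{ℓ : deg Ψ ℓ < p ^ J}` is a proper subgroup of the
homomorphisms, so there is `z ∈ E`, `z ≠ 1`, with `ℓ z = 1` for all these `ℓ` -/
def S_ZHH : Prop := ∀ (p d J : ℕ) (k G : Type) [Field k] [IsAlgClosed k] [CharP k p] [Group G]
  [Finite G] (E : Subgroup G) (ι : G → k) (Ψ : (E →* Multiplicative (ZMod p)) → Polynomial k),
  p.Prime → Nat.card (Set.range ι) = p ^ d → J < d → ZH p J E ι Ψ →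
  ∀ m : ℕ, 4 ≤ m → ¬ p ∣ m → (p = 2 ∨ ¬ p ∣ (m + 1)) →
  ∃ (H : (E →* Multiplicative (ZMod p)) → Polynomial k) (z : E), z ≠ 1 ∧
    (∀ ℓ ℓ', H (ℓ * ℓ') = H ℓ + H ℓ') ∧
    (∀ (g : G) (ℓ ℓ' : E →* Multiplicative (ZMod p)),
      (∀ a b : E, (b : G) = g * a * g⁻¹ → ℓ' b = ℓ a) →
      (H ℓ).comp (Polynomial.X + Polynomial.C (ι g)) = H ℓ') ∧
    ∀ ℓ : E →* Multiplicative (ZMod p), ℓ ≠ 1 → ∃ (D : ℕ) (r : Polynomial k),
      p ^ d * (m - 1) + 1 ≤ D ∧ ¬ p ∣ D ∧ (H ℓ - (r ^ p - r)).natDegree = D ∧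
      (ℓ z ≠ 1 → D = p ^ d * (m - 1) + p ^ J + 1)

/-- ZMN: from `PEX` (for `G`, `ι`: `L₁`), `ZGD`, `ZHH`, `ZCV` (`L₂`; `Apol ι₂ = Apol ι`; `D0 = p ^ d (m - 1) + p ^ J + 1`, conductor
`m + p ^ J / p ^ d`), `ZBD`, `CJC` (`m` large: the conductors of `L₁` are bounded by `CJC`, or by `UPA`-like finiteness), `TWI`, `PUN` -/
def S_ZMN : Prop := ∀ (p d J : ℕ) (k G : Type) [Field k] [IsAlgClosed k] [CharP k p] [Group G]
  [Finite G] (E : Subgroup G) (ι : G → k) (Ψ : (E →* Multiplicative (ZMod p)) → Polynomial k),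
  p.Prime → (∃ n : ℕ, Nat.card G = p ^ n) → Nat.card (Set.range ι) = p ^ d → J < d →
  ZH p J E ι Ψ → p ^ (d - J) ∣ NG k G

/-- ZFF: finite fields in `k`: `q = |F|`, `N = n r`: `F_q`-independent `ω_l ∈ F_{q ^ n}`, dual bases `γ_i`, `δ_i` of `F_{q ^ N} / F_{q ^ n}`;
`c i l = δ_i ω_l`, `T i = Tr(γ_i X) = ∑_{s < r} (γ_i X) ^ (q ^ (n s))` -/
def S_ZFF : Prop := ∀ (p n r : ℕ) (k F : Type) [Field k] [IsAlgClosed k] [CharP k p] [Field F]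
  [Finite F] [CharP F p], p.Prime → 1 ≤ n → 1 ≤ r →
  ∃ (emb : F →+* k) (c : Fin r → Fin n → k) (ω : Fin n → k) (γ : Fin r → k),
    (∀ v : Fin r → Fin n → F, ∑ i, ∑ l, emb (v i l) * c i l = 0 → v = 0) ∧
    (∀ v : Fin n → F, ∑ l, emb (v l) * ω l = 0 → v = 0) ∧
    (∀ v : Fin r → F, ∑ i, emb (v i) * γ i = 0 → v = 0) ∧
    (∀ i : Fin r, ∀ v : Fin r → Fin n → F,
      ∑ s ∈ range r, (γ i * ∑ i', ∑ l, emb (v i' l) * c i' l) ^ (Nat.card F ^ (n * s)) =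
        ∑ l, emb (v i l) * ω l)

/-- ZHD: the data of `ZMN` from `ZFF`.  `p` odd: `ι g = - ∑ (β g) i l c i l`, `Ψ ℓ = ∑ l_l ω_l + ∑ l'_i T_i(X)` for
`ℓ (κ a c) = Tr_{F / F_p} (∑ l_l a_l + ∑ l'_i c_i)` (every homomorphism is of this form), `p ^ d = q ^ (n r)`, `p ^ J = q ^ (n (r - 1))`
(top coefficient `∑ l'_i γ_i ^ (...)`).  `p = 2`: `ι g = ∑ sqrt((β g) i l) c i l`, `Ψ ℓ = ∑ l_l ω_l ^ 2 + ∑ l'_i T_i(X) ^ 2`, `2 ^ J = 2 q ^ (n (r - 1))`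
(if `q ^ n > 2`) -/
def S_ZHD : Prop := ∀ (p n r : ℕ) (k F G : Type) [Field k] [IsAlgClosed k] [CharP k p] [Field F]
  [Finite F] [CharP F p] [Group G] [Finite G] (κ : (Fin n → F) → (Fin r → F) → G)
  (β : G → Matrix (Fin r) (Fin n) F), p.Prime → 1 ≤ n → 1 ≤ r → 2 < Nat.card F ^ n →
  (∀ a a' c c', κ (a + a') (c + c') = κ a c * κ a' c') → (∀ a c, κ a c = 1 → a = 0 ∧ c = 0) →
  (∀ g h : G, β (g * h) = β g + β h) → Function.Surjective β →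
  (∀ g a c, g * κ a c * g⁻¹ = κ a (c + β g *ᵥ a)) →
  ∃ (E : Subgroup G) (ι : G → k) (Ψ : (E →* Multiplicative (ZMod p)) → Polynomial k) (d J : ℕ),
    ZH p J E ι Ψ ∧ Nat.card (Set.range ι) = p ^ d ∧ J < d ∧
    Nat.card F ^ n = Nat.gcd 2 p * p ^ (d - J)

/-- ZHF: from `ZHD`, `ZMN` (`2 < q ^ n`), and `1 ∣ NG` otherwise -/
def S_ZHF : Prop := ∀ (p n r : ℕ) (k F G : Type) [Field k] [IsAlgClosed k] [CharP k p] [Field F]
  [Finite F] [CharP F p] [Group G] [Finite G] (κ : (Fin n → F) → (Fin r → F) → G)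
  (β : G → Matrix (Fin r) (Fin n) F), p.Prime → 1 ≤ n → 1 ≤ r →
  (∃ a : ℕ, Nat.card G = p ^ a) →
  (∀ a a' c c', κ (a + a') (c + c') = κ a c * κ a' c') → (∀ a c, κ a c = 1 → a = 0 ∧ c = 0) →
  (∀ g h : G, β (g * h) = β g + β h) → Function.Surjective β →
  (∀ g a c, g * κ a c * g⁻¹ = κ a (c + β g *ᵥ a)) → Nat.card F ^ n ∣ Nat.gcd 2 p * NG k G

end Pool.CND
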